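import Pool.Agent.H211.CH.Stm

/-!
# CH211, C4: roots of Chebyshev maps
-/

set_option autoImplicit false

open Polynomial Pool.Agent.H211.CH

namespace Pool.Agent.H947.CH211

universe u

variable {K : Type u} [Field K]

theorem it_succ (P : K[X]) (n : ℕ) : it P (n + 1) = P.comp (it P n) := by
  unfold it
  rw [Function.iterate_succ_apply']

theorem it_zero (P : K[X]) : it P 0 = X := rfl

theorem it_comm (P : K[X]) (n : ℕ) : (it P n).comp P = P.comp (it P n) := by
  induction n with
  | zero => rw [it_zero, X_comp, comp_X]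
  | succ n ih => rw [it_succ, comp_assoc, ih]

theorem it_conj {P P' L : K[X]} (h : P.comp L = L.comp P') (n : ℕ) :
    (it P n).comp L = L.comp (it P' n) := by
  induction n with
  | zero => rw [it_zero, it_zero, X_comp, comp_X]
  | succ n ih => rw [it_succ, it_succ, comp_assoc, ih, ← comp_assoc, h, comp_assoc]

theorem it_natDegree (P : K[X]) (n : ℕ) : (it P n).natDegree = P.natDegree ^ n := by
  induction n with
  | zero => rw [it_zero, natDegree_X, pow_zero]
  | succ n ih => rw [it_succ, natDegree_comp, ih, pow_succ']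

/-- the inverse of an affine polynomial -/
theorem exists_inv {L : K[X]} (hL : L.natDegree = 1) :
    ∃ M : K[X], M.natDegree = 1 ∧ L.comp M = X ∧ M.comp L = X := by
  obtain ⟨a, ha, b, rfl⟩ := natDegree_eq_one.1 hL
  refine ⟨C a⁻¹ * X + C (-(a⁻¹ * b)), natDegree_linear (inv_ne_zero ha), ?_, ?_⟩
  · simp only [add_comp, mul_comp, C_comp, X_comp, mul_add, ← mul_assoc, ← C_mul]
    rw [mul_inv_cancel₀ ha, C_1, one_mul, add_assoc, ← C_add]
    have h1 : a * -(a⁻¹ * b) + b = 0 := by
      field_simp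
      ring
    rw [h1, C_0, add_zero]
  · simp only [add_comp, mul_comp, C_comp, X_comp, mul_add, ← mul_assoc, ← C_mul]
    rw [inv_mul_cancel₀ ha, C_1, one_mul, add_assoc, ← C_add, add_neg_cancel, C_0, add_zero]

/-- the top coefficients of the Dickson polynomials -/
theorem dick_coeff (D : ℕ) :
    (∀ k, D < k → (dickson 1 (1 : K) D).coeff k = 0) ∧
    (1 ≤ D → (dickson 1 (1 : K) D).coeff D = 1) ∧
    (1 ≤ D → (dickson 1 (1 : K) D).coeff (D - 1) = 0) ∧
    (2 ≤ D → (dickson 1 (1 : K) D).coeff (D - 2) = -(D : K)) := by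
  have h0 : dickson 1 (1 : K) 0 = C 2 := by
    rw [dickson_zero]
    have h1 : (3 : K[X]) - ((1 : ℕ) : K[X]) = (2 : K[X]) := by
      push_cast
      norm_num
    rw [h1]
    rfl
  induction D using Nat.twoStepInduction with
  | zero =>
    refine ⟨fun k hk => ?_, fun h => absurd h (by omega), fun h => absurd h (by omega),
      fun h => absurd h (by omega)⟩
    rw [h0, coeff_C, if_neg (by omega)]
  | one =>
    refine ⟨fun k hk => ?_, fun _ => ?_, fun _ => ?_, fun h => absurd h (by omega)⟩
    · rw [dickson_one, coeff_X, if_neg (by omega)]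
    · rw [dickson_one, coeff_X_one]
    · rw [dickson_one]
      exact coeff_X_zero
  | more D ih1 ih2 =>
    obtain ⟨a1, a2, a3, a4⟩ := ih1
    obtain ⟨b1, b2, b3, b4⟩ := ih2
    have hrec : ∀ k, (dickson 1 (1 : K) (D + 2)).coeff (k + 1) =
        (dickson 1 (1 : K) (D + 1)).coeff k - (dickson 1 (1 : K) D).coeff (k + 1) := by
      intro k
      rw [dickson_add_two, coeff_sub, coeff_X_mul, C_1, one_mul]
    refine ⟨fun k hk => ?_, fun _ => ?_, fun _ => ?_, fun _ => ?_⟩
    · obtain ⟨j, rfl⟩ : ∃ j, k = j + 1 := ⟨k - 1, by omega⟩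
      rw [hrec, b1 j (by omega), a1 _ (by omega), sub_zero]
    · rw [hrec, b2 (by omega), a1 _ (by omega), sub_zero]
    · have e1 : D + 2 - 1 = D + 1 := by omega
      rw [e1, hrec]
      have e2 := b3 (by omega)
      rw [Nat.add_sub_cancel] at e2
      rw [e2, a1 _ (by omega), sub_zero]
    · have e1 : D + 2 - 2 = D := by omega
      rw [e1]
      rcases Nat.eq_zero_or_pos D with rfl | hD
      · rw [dickson_add_two, coeff_sub, C_1, one_mul, h0, mul_coeff_zero, coeff_X_zero, zero_mul,
          coeff_C_zero]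
        push_cast
        ring
      · obtain ⟨j, rfl⟩ : ∃ j, D = j + 1 := ⟨D - 1, by omega⟩
        have e2 := b4 (by omega)
        have e3 : j + 1 + 1 - 2 = j := by omega
        rw [e3] at e2
        rw [hrec, e2, a2 (by omega)]
        push_cast
        ring

/-- the comparison of the coefficients -/
theorem key_coeff [CharZero K] {D : ℕ} (hD : 2 ≤ D) {ε α c₀ η : K} (hε : ε ≠ 0) (hα : α ≠ 0)
    (h : (C ε * dickson 1 (1 : K) D).comp (C α * X + C c₀) =
      (C α * X + C c₀).comp (C η * dickson 1 (1 : K) D)) : c₀ = 0 ∧ α ^ 2 = 1 := by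
  obtain ⟨h1, h2, h3, h4⟩ := dick_coeff (K := K) D
  have h2' := h2 (by omega)
  have h3' := h3 (by omega)
  have h4' := h4 hD
  obtain ⟨T, hT⟩ : ∃ T : K[X], T = dickson 1 (1 : K) D := ⟨_, rfl⟩
  rw [← hT] at h h1 h2' h3' h4'
  have hD0 : (D : K) ≠ 0 := by
    rw [Nat.cast_ne_zero]
    omega
  rw [mul_comp, C_comp, add_comp, mul_comp, C_comp, X_comp, C_comp] at h
  -- `c₀ = 0`
  have hc : c₀ = 0 := by
    obtain ⟨S, hS⟩ : ∃ S : K[X], S = T - X ^ D := ⟨_, rfl⟩
    have hSd : S.natDegree ≤ D - 2 := by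
      rw [natDegree_le_iff_coeff_eq_zero]
      intro N hN
      rw [hS, coeff_sub, coeff_X_pow]
      rcases lt_trichotomy N D with h5 | h5 | h5
      · have h6 : N = D - 1 := by omega
        rw [if_neg (by omega), h6, h3', sub_zero]
      · rw [if_pos h5, h5, h2', sub_self]
      · rw [if_neg (by omega), h1 N h5, sub_zero]
    have hTS : T = X ^ D + S := by
      rw [hS]
      ring
    have h5 := congrArg (fun p => coeff p (D - 1)) h
    rw [hTS, add_comp, pow_comp, X_comp, coeff_C_mul, coeff_add, coeff_add, coeff_C_mul,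
      coeff_C_mul, coeff_C, if_neg (by omega), add_zero, coeff_add, coeff_X_pow,
      if_neg (by omega)] at h5
    have h6 : (S.comp (C α * X + C c₀)).coeff (D - 1) = 0 := by
      apply coeff_eq_zero_of_natDegree_lt
      rw [natDegree_comp, natDegree_linear hα]
      omega
    have h7 : S.coeff (D - 1) = 0 := coeff_eq_zero_of_natDegree_lt (by omega)
    have h8 : (C α * X + C c₀ : K[X]) = C α * (X + C (c₀ / α)) := by
      rw [mul_add, ← C_mul, mul_div_cancel₀ _ hα]
    rw [h6, h7, h8, mul_pow, ← C_pow, coeff_C_mul, coeff_X_add_C_pow] at h5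
    have h9 : D - (D - 1) = 1 := by omega
    have h10 : (D.choose (D - 1) : K) = D := by
      have h11 : D.choose (D - 1) = D := by
        obtain ⟨m, rfl⟩ : ∃ m, D = m + 1 := ⟨D - 1, by omega⟩
        rw [Nat.add_sub_cancel, Nat.choose_succ_self_right]
      rw [h11]
    rw [h9, h10, pow_one] at h5
    have h12 : ε * (α ^ D * (c₀ / α * D)) = 0 := by
      linear_combination h5
    have h13 : c₀ / α = 0 := by
      rcases mul_eq_zero.1 h12 with h | h
      · exact absurd h hε
      · rcases mul_eq_zero.1 h with h | h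
        · exact absurd h (pow_ne_zero _ hα)
        · rcases mul_eq_zero.1 h with h | h
          · exact h
          · exact absurd h hD0
    rcases div_eq_zero_iff.1 h13 with h | h
    · exact h
    · exact absurd h hα
  refine ⟨hc, ?_⟩
  rw [hc, C_0, add_zero, add_zero] at h
  have h5 : ∀ k, ε * (T.coeff k * α ^ k) = α * (η * T.coeff k) := by
    intro k
    have h6 := congrArg (fun p => coeff p k) h
    rwa [coeff_C_mul, comp_C_mul_X_coeff, coeff_C_mul, coeff_C_mul] at h6
  have h6 := h5 D
  have h7 := h5 (D - 2)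
  rw [h2'] at h6
  rw [h4'] at h7
  obtain ⟨m, rfl⟩ : ∃ m, D = m + 2 := ⟨D - 2, by omega⟩
  rw [Nat.add_sub_cancel] at h7
  have h8 : (ε * α ^ m * ((m + 2 : ℕ) : K)) * (α ^ 2 - 1) = 0 := by
    linear_combination ((m + 2 : ℕ) : K) * h6 + h7
  rcases mul_eq_zero.1 h8 with h9 | h9
  · exact absurd h9 (mul_ne_zero (mul_ne_zero hε (pow_ne_zero _ hα)) hD0)
  · exact sub_eq_zero.1 h9

theorem t_C4 {K : Type u} [Field K] [IsAlgClosed K] [CharZero K] (hC1 : S_C1 K) (hC3 : S_C3 K) :
    S_C4 K := by
  refine ⟨?_, ?_⟩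
  · intro P n hP hn hch
    have hD : 2 ≤ P.natDegree ^ n :=
      le_trans hP (Nat.le_self_pow (by omega) _)
    obtain ⟨L, hL, ε, hε, hF⟩ := hC1.1 (it P n) hch (by rw [it_natDegree]; omega)
    rw [it_natDegree] at hF
    obtain ⟨M, hM, hLM, hML⟩ := exists_inv hL
    obtain ⟨P', hP'⟩ : ∃ P' : K[X], P' = M.comp (P.comp L) := ⟨_, rfl⟩
    have hconj : P.comp L = L.comp P' := by
      rw [hP', ← comp_assoc, hLM, X_comp]
    have hdeg : P'.natDegree = P.natDegree := by
      rw [hP', natDegree_comp, natDegree_comp, hM, hL, one_mul, mul_one]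
    have hY : it P' n = C ε * dickson 1 (1 : K) (P.natDegree ^ n) := by
      have h1 := it_conj hconj n
      rw [hF] at h1
      have h2 := congrArg (fun q => M.comp q) h1
      rw [← comp_assoc, ← comp_assoc, hML, X_comp, X_comp] at h2
      exact h2.symm
    have hcm : (it P' n).comp P' =
        P'.comp (C ε * dickson 1 (1 : K) (P.natDegree ^ n)) := by
      rw [it_comm, hY]
    obtain ⟨α, c₀, hα, hPα, hcc⟩ := hC3 (it P' n) P' ε (P.natDegree ^ n) hD hε
      (by rw [hdeg]; omega) hcm
    have hε0 : ε ≠ 0 := by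
      rcases hε with h | h
      · rw [h]; exact one_ne_zero
      · rw [h]; exact neg_ne_zero.2 one_ne_zero
    rw [hY] at hcc
    obtain ⟨hc0, hα2⟩ := key_coeff hD hε0 hα hcc
    rw [hc0, C_0, add_zero, hdeg] at hPα
    have hα1 : α = 1 ∨ α = -1 := by
      have h1 : (α - 1) * (α + 1) = 0 := by linear_combination hα2
      rcases mul_eq_zero.1 h1 with h | h
      · exact Or.inl (sub_eq_zero.1 h)
      · exact Or.inr (eq_neg_of_add_eq_zero_left h)
    refine hC1.2 P L α P.natDegree (by omega) hL hα1 ?_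
    rw [hconj, hPα]
  · rintro P n ⟨w₁, w₂, hw, G, hG⟩
    refine ⟨w₁, w₂, hw, ?_⟩
    induction n with
    | zero => exact ⟨1, by rw [it_zero, one_pow, mul_one]⟩
    | succ n ih =>
      obtain ⟨G', hG'⟩ := ih
      refine ⟨G' * G.comp (it P n), ?_⟩
      have h1 := congrArg (fun q => q.comp (it P n)) hG
      simp only [mul_comp, sub_comp, C_comp, X_comp, pow_comp] at h1
      rw [it_succ, h1, hG']
      ring

end Pool.Agent.H947.CH211
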